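import Mathlib
import Pool.Agent.H631R2.Omega1

set_option autoImplicit false

/-!
# The relation `2 ^ (2 ^< ℵ_ω₁) ↛ (ℵ_ω₁, 5)⁴` holds in ZFC

Here `2 ^< κ` is the weak power, the supremum of `2 ^ ρ` over `ρ < κ` (Mathlib: `Cardinal.powerlt`).
-/

open Cardinal Ordinal

namespace Pool.Agent.Results.MP_d0bad0_lc.WeakPower

/-- Some set of cardinality `2 ^ (2 ^< ℵ_ω₁)` has a colouring `c` of its four-element subsets with
the two colours `false` and `true` such that no subset of cardinality `ℵ_ω₁` has all its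
four-element subsets of colour `false` and no five-element subset has all its four-element subsets
of colour `true`. -/
theorem result : ∃ (α : Type) (c : Finset α → Bool),
    #α = 2 ^ (2 ^< ℵ_ (ω_ 1 : Ordinal.{0})) ∧
    (∀ H : Set α, #H = ℵ_ (ω_ 1 : Ordinal.{0}) →
      ∃ s : Finset α, (s : Set α) ⊆ H ∧ s.card = 4 ∧ c s = true) ∧
    (∀ s : Finset α, s.card = 5 → ∃ t : Finset α, t ⊆ s ∧ t.card = 4 ∧ c t = false) :=
  Pool.Agent.H631R2.neg_omega1

end Pool.Agent.Results.MP_d0bad0_lc.WeakPower
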